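import Pool.Agent.Q290.Late.Final

/-!
# MP_4cdbd9_pr, Q1: the answer is no

For `q = 3/5` and every load `ρ = 1 - θ` with `0 < θ ≤ 10⁻¹²` the generating function of the
stationary distribution of the late arrivals chain is not of the conjectured product form.

If it were, then for every real `z` in `(-1, 1)` all factors would be real, and hence
`P(z, h) P(z, -h) ≤ P(z, 0) ^ 2` for small real `h`. At `z = -24/5 * θ` this fails: the scaled
probabilities `P_{n,l} θ ^ (n + l) / P_{0,0}` with `n + l ≤ 6` satisfy, up to an error `5 θ`,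
explicit linear equations which determine the sign of the second difference.
-/

open Filter Topology

namespace Pool.Agent.Results.MP_4cdbd9_pr.HeavyTraffic

open Pool.Agent.Q290.Late

theorem result : ∀ θ : ℝ, 0 < θ → θ ≤ 1 / 10 ^ 12 →
    ∀ P : ℕ → ℕ → ℝ, IsStationary (1 - θ) (3 / 5) P → ¬ ProductForm (1 - θ) (3 / 5) P :=
  fun _ h0 h1 _ hP => no_form h0 h1 hP

end Pool.Agent.Results.MP_4cdbd9_pr.HeavyTraffic
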